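import Pool.Agent.H20.VL.FinM

open MeasureTheory Set ContDiff

namespace Pool.Agent.Results.MP_a275d8_an.VolumeNonSmoothExponent

open Pool.Agent.H14.Lyap Pool.Agent.H20.VL

/-- There is a `C^∞` family of volume preserving `C^∞` diffeomorphisms of the torus `T^6`, each with
a dominated splitting (whose first bundle is a line bundle), such that the integrated Lyapunov
exponent of the first bundle, with respect to the volume, is not a `C^∞` function of the
parameter. -/
theorem result : ∃ (F : ℝ → Euc 6 → Euc 6) (P : ℝ → Torus 6 → Euc 6 →L[ℝ] Euc 6),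
    IsDominatedFamily proj rep (volume : Measure (Torus 6)) F P ∧
    ¬ ContDiffOn ℝ ∞ (fun t => integratedExponent rep (volume : Measure (Torus 6)) (F t) (P t))
      (Ioo (-1) 1) := by
  obtain ⟨p⟩ := exists_path
  obtain ⟨a⟩ := exists_par p
  classical
  let P : ℝ → Torus 6 → Euc 6 →L[ℝ] Euc 6 := fun t =>
    if h : t ∈ Icc (-1 : ℝ) 1 then (a.D t h).S.P else fun _ => 0
  have hP : ∀ (t : ℝ) (h : t ∈ Icc (-1 : ℝ) 1), P t = (a.D t h).S.P := fun t h => by
    simp only [P, dif_pos h]
  refine ⟨a.F, P, ⟨a.F_joint, fun t ht => ?_⟩, fun hsm => ?_⟩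
  · have h : t ∈ Icc (-1 : ℝ) 1 := Ioo_subset_Icc_self ht
    rw [hP t h]
    exact ⟨(a.D t h).isTorusDiffeo, (a.D t h).isDominatedSplitting, finrank_P (a.D t h),
      Fs_preserves a.n a.K a.dl (p.r t) (p.c t) (p.t t)⟩
  · apply not_smooth a
    refine hsm.congr fun t ht => ?_
    have h : t ∈ Icc (-1 : ℝ) 1 := Ioo_subset_Icc_self ht
    have hm : MeasurePreserving (a.D t h).f (volume : Measure (Torus 6)) volume :=
      Fs_preserves a.n a.K a.dl (p.r t) (p.c t) (p.t t)
    have e := exponent_eq_integral (a.D t h) hm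
    rw [hP t h]
    unfold GE
    rw [dif_pos h]
    exact e.symm

end Pool.Agent.Results.MP_a275d8_an.VolumeNonSmoothExponent
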